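import Pool.Agent.Helper48.WeissJ.Goals

/-! Packet CAPSH: the content of the bins. -/

open Set Filter Topology

namespace Pool.Agent.Helper48.WeissJ

universe u

theorem capsh : CAPSH.{u} := by
  classical
  intro X Λ _ _ F q hq T L
  refine ⟨?_, ?_⟩
  · rw [← (Fin.appendEquiv T L).sum_comp, Fintype.sum_prod_type]
    refine le_of_eq ?_
    unfold cap
    rw [Finset.mul_sum]
    refine Finset.sum_congr rfl (fun w _ => ?_)
    have h1 : ∀ w' : Fin L → Λ, top F q T
        (fun s => (Fin.appendEquiv T L) (w, w') (Fin.castAdd L s)) univ = top F q T w univ := by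
      intro w'
      congr 1
      funext s
      show Fin.append w w' (Fin.castAdd L s) = w s
      exact Fin.append_left w w' s
    rw [Finset.sum_congr rfl (fun w' _ => h1 w')]
    simp
  · intro N₁ bin M b hM hbin x
    set Y : Set X := {y | (x, y) ∈ Sh₁ F q (T + L) bin b ∧ y ∉ {y | tot F q (T + L) y < b}} with hY
    have hYp : ∀ y ∈ Y, ∃ w w' : Fin (T + L) → Λ, bin w = bin w' ∧ 0 < qw F q (T + L) w x ∧
        0 < qw F q (T + L) w' y := by
      rintro y ⟨h1, h2⟩
      rcases h1 with h1 | h1
      · exact h1
      · exact absurd h1.2 h2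
    by_cases hne : Y.Nonempty
    · obtain ⟨y₀, hy₀⟩ := hne
      obtain ⟨wx, _, _, hwx, _⟩ := hYp y₀ hy₀
      refine le_trans ?_ (hbin (bin wx))
      unfold cap
      rw [← Finset.sum_fiberwise (Finset.univ.filter (fun w => bin w = bin wx))
        (fun w => (fun s => w (Fin.castAdd L s) : Fin T → Λ))
        (fun w => top F q T (fun s => w (Fin.castAdd L s)) univ)]
      refine Finset.sum_le_sum (fun z _ => ?_)
      have hnn : ∀ w : Fin (T + L) → Λ, 0 ≤ top F q T (fun s => w (Fin.castAdd L s)) univ :=
        fun w => hq.top_nonneg _ _ _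
      refine top_le (Finset.sum_nonneg (fun w _ => hnn w)) (fun y hy => ?_)
      rcases (hq.qw_nonneg T z y).eq_or_lt with h0 | h0
      · rw [← h0]
        exact Finset.sum_nonneg (fun w _ => hnn w)
      · obtain ⟨w, w', hb, hw, hw'⟩ := hYp y hy
        have hwe : w = wx := hq.qw_unique hw hwx
        subst hwe
        have happ : Fin.append (fun s => w' (Fin.castAdd L s)) (fun s => w' (Fin.natAdd T s)) = w' :=
          Fin.append_castAdd_natAdd
        have hpos : 0 < qw F q T (fun s => w' (Fin.castAdd L s)) y := by
          rw [← happ, qw_append] at hw'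
          exact lt_of_le_of_ne (hq.qw_nonneg _ _ _) (fun h => by rw [← h, zero_mul] at hw'; exact lt_irrefl _ hw')
        have hz : (fun s => w' (Fin.castAdd L s)) = z := hq.qw_unique hpos h0
        have hmem : w' ∈ (Finset.univ.filter (fun w'' => bin w'' = bin w)).filter
            (fun w'' => (fun s => w'' (Fin.castAdd L s) : Fin T → Λ) = z) := by
          simp only [Finset.mem_filter, Finset.mem_univ, true_and]
          exact ⟨hb.symm, hz⟩
        calc qw F q T z y = qw F q T (fun s => w' (Fin.castAdd L s)) y := by rw [hz]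
          _ ≤ top F q T (fun s => w' (Fin.castAdd L s)) univ := hq.le_top (mem_univ y)
          _ ≤ _ := Finset.single_le_sum
              (f := fun w'' => top F q T (fun s => w'' (Fin.castAdd L s)) univ)
              (fun w'' _ => hnn w'') hmem
    · rw [Set.not_nonempty_iff_eq_empty] at hne
      refine le_trans (le_of_eq ?_) hM
      unfold cap
      refine Finset.sum_eq_zero (fun z _ => ?_)
      unfold top
      rw [hne, Set.image_empty, Real.sSup_empty]

end Pool.Agent.Helper48.WeissJ
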